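import Pool.Agent.W672.Dos.Lim
import Pool.Agent.W965.Stu.Tr

/-!
Existence and uniqueness of the density of states measure, approximation by zeros.
-/

set_option autoImplicit false

open MeasureTheory Filter Topology Set
open scoped ENNReal NNReal BoundedContinuousFunction

namespace Pool.Agent.W672.Dos

open Pool.Agent.W811.Dos Pool.Agent.W811.Stu Pool.Agent.H695R3.ST Pool.Agent.W965.Stu
open Pool.Agent.Helper434.PSCplx (L2)

lemma pot_abs_le {lam : ℝ} (h : 0 ≤ lam) (α ω : ℝ) (n : ℤ) : |pot lam α ω n| ≤ lam := by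
  unfold pot
  split_ifs
  · rw [abs_of_nonneg h]
  · simpa using h

/-- the moments of the density of states -/
noncomputable def Mo (lam α : ℝ) (k : ℕ) : ℝ := ∫ ω in (0:ℝ)..1, loc (pot lam α ω) k 0

lemma moments (hTR : TTr) (hWL : TWl) (hZC : TZc) {lam : ℝ} (hl : 0 < lam) {α : ℝ}
    (hα : Irrational α) (h0 : 0 < α) (h1 : α < 1) (k : ℕ) :
    Tendsto (fun m => av (zs lam (m + 1) (dig α)) (fun x => x ^ k)) atTop (𝓝 (Mo lam α k)) := by
  obtain ⟨C, hC⟩ := hTR lam k
  have hd := dig_pos hα h0 h1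
  set q : ℕ → ℕ := fun m => QQ (dig α) (m + 2) with hq
  have hq1 : ∀ m, 1 ≤ q m := fun m => QQ_pos hd (m + 1)
  have hqt : Tendsto q atTop atTop :=
    tendsto_atTop_mono (fun m => QQ_large hd m) (tendsto_add_atTop_nat 1)
  have hqr : Tendsto (fun m => (q m : ℝ)) atTop atTop := tendsto_natCast_atTop_atTop.comp hqt
  have hw := (hWL lam α hα h0 h1 k).comp hqt
  have hdiff : Tendsto (fun m => av (zs lam (m + 1) (dig α)) (fun x => x ^ k) -
      (∑ n ∈ Finset.range (q m), loc (pot lam α 0) k ((n : ℤ) + 1)) / (q m : ℝ)) atTop (𝓝 0) := by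
    apply squeeze_zero_norm (a := fun m => C / (q m : ℝ))
    · intro m
      obtain ⟨hz1, hz2, -⟩ := hZC lam hl α hα h0 h1 (m + 1) (by omega)
      have hcard : (zs lam (m + 1) (dig α)).card = q m := hz2
      have hb := hC (pot lam α 0) (pot_abs_le hl.le α 0) (q m) (hq1 m)
        (zs lam (m + 1) (dig α)) hcard (by
          intro E hE
          have hy := (hz1 E).mp hE
          have := orb_y_D (lam := lam) (E := E) hα h0 h1 m
          rw [hy, mul_zero] at this
          exact this.symm)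
      unfold av
      have hqp : (0 : ℝ) < q m := by exact_mod_cast hq1 m
      rw [hcard, ← sub_div, Real.norm_eq_abs, abs_div, abs_of_pos hqp]
      gcongr
    · exact hqr.const_div_atTop C
  have := hdiff.add hw
  simp only [zero_add, Function.comp] at this
  refine this.congr fun m => ?_
  ring

lemma qf_poly_bound (hQF : TQf) (hLM : TLm) {lam : ℝ} (hl : 0 < lam) {α : ℝ}
    {H : ℝ → L2 →L[ℂ] L2} (hH : ∀ ω, IsSchr (pot lam α ω) (H ω)) (p : Polynomial ℝ) :
    Measurable (fun ω => qf (fun x => p.eval x) (H ω) δ0) ∧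
    (∃ C, ∀ ω, |qf (fun x => p.eval x) (H ω) δ0| ≤ C) ∧
    ∫ ω in (0:ℝ)..1, qf (fun x => p.eval x) (H ω) δ0 = p.sum fun k a => a * Mo lam α k := by
  have e : ∀ ω, qf (fun x => p.eval x) (H ω) δ0 =
      ∑ k ∈ p.support, p.coeff k * loc (pot lam α ω) k 0 := by
    intro ω
    rw [(hQF lam (pot lam α ω) (H ω) (pot_abs_le hl.le α ω) (hH ω)).1 p, Polynomial.sum_def]
  have hb : ∀ k ω, |loc (pot lam α ω) k 0| ≤ (2 + lam) ^ k := fun k ω =>
    hLM.1 lam (pot lam α ω) (pot_abs_le hl.le α ω) k 0
  have hm : ∀ k, Measurable (fun ω => loc (pot lam α ω) k 0) := fun k => hLM.2 lam α k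
  refine ⟨?_, ?_, ?_⟩
  · simp only [e]
    exact Finset.measurable_sum _ fun k _ => (hm k).const_mul _
  · refine ⟨∑ k ∈ p.support, |p.coeff k| * (2 + lam) ^ k, fun ω => ?_⟩
    rw [e]
    refine (Finset.abs_sum_le_sum_abs _ _).trans (Finset.sum_le_sum fun k _ => ?_)
    rw [abs_mul]
    exact mul_le_mul_of_nonneg_left (hb k ω) (abs_nonneg _)
  · simp only [e]
    rw [intervalIntegral.integral_finsetSum, Polynomial.sum_def]
    · refine Finset.sum_congr rfl fun k _ => ?_
      rw [intervalIntegral.integral_const_mul, Mo]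
    · intro k _
      apply IntervalIntegrable.const_mul
      rw [intervalIntegrable_iff]
      refine Measure.integrableOn_of_bounded (M := (2 + lam) ^ k) (by simp)
        (hm k).aestronglyMeasurable ?_
      filter_upwards with ω
      rw [Real.norm_eq_abs]
      exact hb k ω

theorem dos (hTR : TTr) (hWL : TWl) (hZC : TZc) (hQF : TQf) (hLM : TLm) : TDos := by
  intro lam hl α hα h0 h1
  have hd := dig_pos hα h0 h1
  have hR0 : (0 : ℝ) ≤ 2 + lam := by linarith
  obtain ⟨μ, hμp, hμs, hlim, hmom⟩ := lim_exists (fun m => zs lam (m + 1) (dig α)) (2 + lam)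
    (by
      intro m
      obtain ⟨-, hz2, -⟩ := hZC lam hl α hα h0 h1 (m + 1) (by omega)
      rw [← Finset.card_pos, hz2]
      exact QQ_pos hd (m + 1))
    (by
      intro m x hx
      exact (hZC lam hl α hα h0 h1 (m + 1) (by omega)).2.2 x hx)
    (Mo lam α) (moments hTR hWL hZC hl hα h0 h1)
  have hdos : IsDOS lam α μ := by
    refine ⟨hμp, ?_⟩
    intro H hH g hg _
    have hex : ∀ j : ℕ, ∃ p : Polynomial ℝ, ∀ x ∈ Icc (-(2 + lam)) (2 + lam),
        |p.eval x - g x| < 1 / ((j : ℝ) + 1) := fun j =>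
      exists_polynomial_near_of_continuousOn _ _ g hg.continuousOn _ (by positivity)
    choose p hp using hex
    have hclose : ∀ j ω, |qf (fun x => (p j).eval x) (H ω) δ0 - qf g (H ω) δ0| ≤
        1 / ((j : ℝ) + 1) := fun j ω =>
      (hQF lam (pot lam α ω) (H ω) (pot_abs_le hl.le α ω) (hH ω)).2 _ _ _ (by fun_prop) hg
        fun x hx => (hp j x hx).le
    have hinv : Tendsto (fun j : ℕ => 1 / ((j : ℝ) + 1)) atTop (𝓝 0) :=
      tendsto_one_div_add_atTop_nhds_zero_nat
    have hptw : ∀ ω, Tendsto (fun j => qf (fun x => (p j).eval x) (H ω) δ0) atTop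
        (𝓝 (qf g (H ω) δ0)) := by
      intro ω
      rw [tendsto_iff_norm_sub_tendsto_zero]
      exact squeeze_zero (fun _ => norm_nonneg _) (fun j => hclose j ω) hinv
    have hmeas : Measurable (fun ω => qf g (H ω) δ0) := by
      refine measurable_of_tendsto_metrizable
        (fun j => (qf_poly_bound hQF hLM hl hH (p j)).1) ?_
      rw [tendsto_pi_nhds]
      exact hptw
    refine ⟨hmeas, ?_⟩
    have hint1 : Tendsto (fun j => ∫ x, (p j).eval x ∂μ) atTop (𝓝 (∫ x, g x ∂μ)) := by
      rw [tendsto_iff_norm_sub_tendsto_zero]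
      refine squeeze_zero (fun _ => norm_nonneg _) (fun j => ?_) hinv
      exact int_sub_le hR0 hμs (by fun_prop) hg fun x hx => (hp j x (abs_le.mp hx)).le
    obtain ⟨C0, hC0⟩ := (qf_poly_bound hQF hLM hl hH (p 0)).2.1
    have hint2 : Tendsto (fun j => ∫ ω in (0:ℝ)..1, qf (fun x => (p j).eval x) (H ω) δ0) atTop
        (𝓝 (∫ ω in (0:ℝ)..1, qf g (H ω) δ0)) := by
      apply intervalIntegral.tendsto_integral_filter_of_dominated_convergence
        (fun _ => C0 + 2)
      · exact Eventually.of_forall fun j =>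
          (qf_poly_bound hQF hLM hl hH (p j)).1.aestronglyMeasurable
      · refine Eventually.of_forall fun j => Eventually.of_forall fun ω _ => ?_
        have a1 := hclose j ω
        have a2 := hclose 0 ω
        have a3 := hC0 ω
        have a4 : 1 / ((j : ℝ) + 1) ≤ 1 := by
          rw [div_le_one (by positivity)]
          have : (0 : ℝ) ≤ j := Nat.cast_nonneg j
          linarith
        have a5 : 1 / (((0 : ℕ) : ℝ) + 1) = 1 := by norm_num
        rw [a5] at a2
        rw [Real.norm_eq_abs]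
        rw [abs_le] at a1 a2 a3 ⊢
        constructor <;> linarith [a1.1, a1.2, a2.1, a2.2, a3.1, a3.2]
      · exact intervalIntegrable_const
      · exact Eventually.of_forall fun ω _ => hptw ω
    have heq : ∀ j, ∫ x, (p j).eval x ∂μ =
        ∫ ω in (0:ℝ)..1, qf (fun x => (p j).eval x) (H ω) δ0 := by
      intro j
      rw [(qf_poly_bound hQF hLM hl hH (p j)).2.2, int_poly hR0 hμs]
      simp only [hmom]
    simp only [heq] at hint1
    exact tendsto_nhds_unique hint1 hint2
  refine ⟨μ, hdos, ?_, ?_⟩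
  · intro μ' hμ'
    have hex : ∀ ω, ∃ H : L2 →L[ℂ] L2, IsSchr (pot lam α ω) H := fun ω => by
      obtain ⟨H, hH, -⟩ := exists_schr (pot_abs_le hl.le α ω)
      exact ⟨H, hH⟩
    choose H hH using hex
    have := hμ'.1
    have := hμp
    apply ext_of_forall_integral_eq_of_IsFiniteMeasure
    intro f
    have hb : ∃ C, ∀ x, |f x| ≤ C := ⟨‖f‖, fun x => f.norm_coe_le_norm x⟩
    rw [(hμ'.2 H hH f f.continuous hb).2, (hdos.2 H hH f f.continuous hb).2]
  · intro g hg
    exact (tendsto_add_atTop_iff_nat 1).mp (hlim g hg)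

end Pool.Agent.W672.Dos
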