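import Pool.Agent.W811.Dos.Stm
import Mathlib.MeasureTheory.Measure.Prokhorov

/-!
Limits of averages over finite sets, given the convergence of the moments.
-/

set_option autoImplicit false

open MeasureTheory Filter Topology Set
open scoped ENNReal NNReal BoundedContinuousFunction

namespace Pool.Agent.W672.Dos

open Pool.Agent.W811.Dos

lemma av_sub_le {Z : Finset ℝ} (hZ : Z.Nonempty) {R ε : ℝ} (hR : ∀ x ∈ Z, |x| ≤ R)
    {f g : ℝ → ℝ} (h : ∀ x, |x| ≤ R → |f x - g x| ≤ ε) : |av Z f - av Z g| ≤ ε := by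
  unfold av
  rw [← sub_div, ← Finset.sum_sub_distrib, abs_div]
  have hc : (0:ℝ) < Z.card := by exact_mod_cast hZ.card_pos
  rw [abs_of_pos hc, div_le_iff₀ hc]
  calc |∑ x ∈ Z, (f x - g x)| ≤ ∑ x ∈ Z, |f x - g x| := Finset.abs_sum_le_sum_abs _ _
    _ ≤ ∑ x ∈ Z, ε := Finset.sum_le_sum fun x hx => h x (hR x hx)
    _ = ε * Z.card := by simp [mul_comm]

lemma av_congr {Z : Finset ℝ} {f g : ℝ → ℝ} (h : ∀ x ∈ Z, f x = g x) : av Z f = av Z g := by
  unfold av
  rw [Finset.sum_congr rfl h]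

lemma av_poly (Z : Finset ℝ) (p : Polynomial ℝ) :
    av Z (fun x => p.eval x) = p.sum fun k a => a * av Z (fun x => x ^ k) := by
  unfold av
  simp only [Polynomial.eval_eq_sum, Polynomial.sum_def]
  rw [Finset.sum_comm, Finset.sum_div]
  refine Finset.sum_congr rfl fun k _ => ?_
  rw [← Finset.mul_sum, mul_div_assoc]

/-- the uniform measure -/
noncomputable def um (Z : Finset ℝ) : Measure ℝ :=
  (Z.card : ℝ≥0∞)⁻¹ • ∑ x ∈ Z, Measure.dirac x

lemma um_prob {Z : Finset ℝ} (hZ : Z.Nonempty) : IsProbabilityMeasure (um Z) := by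
  constructor
  unfold um
  have h0 : (Z.card : ℝ≥0∞) ≠ 0 := by
    have := hZ.card_pos
    exact_mod_cast this.ne'
  simp only [Measure.smul_apply, Measure.coe_finsetSum, Finset.sum_apply, measure_univ,
    Finset.sum_const, nsmul_eq_mul, mul_one, smul_eq_mul]
  exact ENNReal.inv_mul_cancel h0 (ENNReal.natCast_ne_top _)

lemma um_int (Z : Finset ℝ) (f : ℝ → ℝ) : ∫ x, f x ∂(um Z) = av Z f := by
  unfold um av
  rw [integral_smul_measure, integral_finsetSum_measure (fun i _ => integrable_dirac (by simp))]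
  simp only [integral_dirac, ENNReal.toReal_inv, ENNReal.toReal_natCast, smul_eq_mul]
  rw [div_eq_inv_mul]

lemma um_compl (Z : Finset ℝ) (S : Set ℝ) (hS : MeasurableSet S) (h : ∀ x ∈ Z, x ∈ S) :
    um Z Sᶜ = 0 := by
  unfold um
  simp only [Measure.smul_apply, Measure.coe_finsetSum, Finset.sum_apply, smul_eq_mul]
  rw [Finset.sum_eq_zero, mul_zero]
  intro x hx
  rw [Measure.dirac_apply' _ hS.compl]
  simp [h x hx]

/-- clamping to `[-R, R]` -/
noncomputable def cl (R x : ℝ) : ℝ := max (-R) (min R x)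

lemma cl_cont (R : ℝ) : Continuous (cl R) := by unfold cl; fun_prop

lemma cl_mem {R : ℝ} (hR : 0 ≤ R) (x : ℝ) : cl R x ∈ Icc (-R) R := by
  unfold cl
  constructor
  · exact le_max_left _ _
  · exact max_le (by linarith) (min_le_left _ _)

lemma cl_eq {R x : ℝ} (hx : x ∈ Icc (-R) R) : cl R x = x := by
  unfold cl
  rw [min_eq_right hx.2, max_eq_right hx.1]

/-- the bounded continuous function that agrees with `f` on `[-R, R]` -/
lemma exists_bcf {R : ℝ} (hR : 0 ≤ R) {f : ℝ → ℝ} (hf : Continuous f) :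
    ∃ F : ℝ →ᵇ ℝ, ∀ x ∈ Icc (-R) R, F x = f x := by
  obtain ⟨C, hC⟩ := (isCompact_Icc (a := -R) (b := R)).exists_bound_of_continuousOn
    hf.continuousOn
  refine ⟨BoundedContinuousFunction.ofNormedAddCommGroup (fun x => f (cl R x))
    (hf.comp (cl_cont R)) C (fun x => hC _ (cl_mem hR x)), ?_⟩
  intro x hx
  simp only [BoundedContinuousFunction.coe_ofNormedAddCommGroup]
  rw [cl_eq hx]

variable {μ : Measure ℝ} [IsProbabilityMeasure μ] {R : ℝ}

omit [IsProbabilityMeasure μ] in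
lemma ae_mem (h : μ (Icc (-R) R)ᶜ = 0) : ∀ᵐ x ∂μ, x ∈ Icc (-R) R := by
  rw [ae_iff]
  exact h

lemma integrable_cont (hR : 0 ≤ R) (h : μ (Icc (-R) R)ᶜ = 0) {f : ℝ → ℝ} (hf : Continuous f) :
    Integrable f μ := by
  obtain ⟨F, hF⟩ := exists_bcf hR hf
  refine (F.integrable μ).congr ?_
  filter_upwards [ae_mem h] with x hx
  exact hF x hx

lemma int_sub_le (hR : 0 ≤ R) (h : μ (Icc (-R) R)ᶜ = 0) {f g : ℝ → ℝ} (hf : Continuous f)
    (hg : Continuous g) {ε : ℝ} (he : ∀ x, |x| ≤ R → |f x - g x| ≤ ε) :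
    |∫ x, f x ∂μ - ∫ x, g x ∂μ| ≤ ε := by
  rw [← integral_sub (integrable_cont hR h hf) (integrable_cont hR h hg)]
  have := norm_integral_le_of_norm_le_const (μ := μ) (f := fun x => f x - g x) (C := ε) (by
    filter_upwards [ae_mem h] with x hx
    exact he x (abs_le.mpr hx))
  simpa using this

lemma int_poly (hR : 0 ≤ R) (h : μ (Icc (-R) R)ᶜ = 0) (p : Polynomial ℝ) :
    ∫ x, p.eval x ∂μ = p.sum fun k a => a * ∫ x, x ^ k ∂μ := by
  simp only [Polynomial.eval_eq_sum, Polynomial.sum_def]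
  rw [integral_finsetSum _ fun k _ => integrable_cont hR h (by fun_prop)]
  refine Finset.sum_congr rfl fun k _ => ?_
  rw [integral_const_mul]

theorem lim_exists (Z : ℕ → Finset ℝ) (R : ℝ) (hne : ∀ m, (Z m).Nonempty)
    (hR : ∀ m, ∀ x ∈ Z m, |x| ≤ R) (Φ : ℕ → ℝ)
    (hΦ : ∀ k, Tendsto (fun m => av (Z m) (fun x => x ^ k)) atTop (𝓝 (Φ k))) :
    ∃ μ : Measure ℝ, IsProbabilityMeasure μ ∧ μ (Icc (-R) R)ᶜ = 0 ∧ Lim Z μ ∧
      ∀ k, ∫ x, x ^ k ∂μ = Φ k := by
  have hR0 : 0 ≤ R := by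
    obtain ⟨x, hx⟩ := hne 0
    exact (abs_nonneg x).trans (hR 0 x hx)
  have hmem : ∀ m, ∀ x ∈ Z m, x ∈ Icc (-R) R := fun m x hx => abs_le.mp (hR m x hx)
  let μs : ℕ → ProbabilityMeasure ℝ := fun m => ⟨um (Z m), um_prob (hne m)⟩
  have htight : IsTightMeasureSet {((μ : ProbabilityMeasure ℝ) : Measure ℝ) |
      μ ∈ Set.range μs} := by
    rw [isTightMeasureSet_iff_exists_isCompact_measure_compl_le]
    intro ε hε
    refine ⟨Icc (-R) R, isCompact_Icc, ?_⟩
    rintro _ ⟨μ, ⟨i, rfl⟩, rfl⟩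
    have : (μs i : Measure ℝ) (Icc (-R) R)ᶜ = 0 :=
      um_compl (Z i) _ measurableSet_Icc (hmem i)
    rw [this]
    exact zero_le
  have hcomp := isCompact_closure_of_isTightMeasureSet htight
  obtain ⟨μ, -, φ, hφ, hlim⟩ := hcomp.tendsto_subseq (x := μs)
    (fun i => subset_closure (Set.mem_range_self i))
  have hsupp : (μ : Measure ℝ) (Icc (-R) R)ᶜ = 0 := by
    have h1 := ProbabilityMeasure.le_liminf_measure_open_of_tendsto hlim
      (G := (Icc (-R) R)ᶜ) isClosed_Icc.isOpen_compl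
    have h2 : ∀ i, ((μs ∘ φ) i : Measure ℝ) (Icc (-R) R)ᶜ = 0 := fun i =>
      um_compl (Z (φ i)) _ measurableSet_Icc (hmem _)
    simp only [h2] at h1
    simpa using h1
  have hA : ∀ f : ℝ → ℝ, Continuous f →
      Tendsto (fun i => av (Z (φ i)) f) atTop (𝓝 (∫ x, f x ∂(μ : Measure ℝ))) := by
    intro f hf
    obtain ⟨F, hF⟩ := exists_bcf hR0 hf
    have h1 := (ProbabilityMeasure.tendsto_iff_forall_integral_tendsto.mp hlim) F
    have h2 : ∀ i, ∫ x, F x ∂((μs ∘ φ) i : Measure ℝ) = av (Z (φ i)) f := by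
      intro i
      have : ∫ x, F x ∂((μs ∘ φ) i : Measure ℝ) = av (Z (φ i)) F := um_int _ _
      rw [this]
      exact av_congr fun x hx => hF x (hmem _ x hx)
    have h3 : ∫ x, F x ∂(μ : Measure ℝ) = ∫ x, f x ∂(μ : Measure ℝ) := by
      apply integral_congr_ae
      filter_upwards [ae_mem hsupp] with x hx
      exact hF x hx
    simp only [h2] at h1
    rw [h3] at h1
    exact h1
  have hmom : ∀ k, ∫ x, x ^ k ∂(μ : Measure ℝ) = Φ k := by
    intro k
    have h1 := hA (fun x => x ^ k) (by fun_prop)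
    have h2 := (hΦ k).comp hφ.tendsto_atTop
    exact tendsto_nhds_unique h1 h2
  refine ⟨μ, inferInstance, hsupp, ?_, hmom⟩
  intro f hf
  have hpoly : ∀ p : Polynomial ℝ, Tendsto (fun m => av (Z m) (fun x => p.eval x)) atTop
      (𝓝 (∫ x, p.eval x ∂(μ : Measure ℝ))) := by
    intro p
    rw [int_poly hR0 hsupp p]
    simp only [av_poly, Polynomial.sum_def]
    apply tendsto_finsetSum
    intro k _
    rw [hmom k]
    exact (hΦ k).const_mul _
  rw [Metric.tendsto_atTop]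
  intro ε hε
  obtain ⟨p, hp⟩ := exists_polynomial_near_of_continuousOn (-R) R f hf.continuousOn (ε / 4)
    (by linarith)
  obtain ⟨N, hN⟩ := Metric.tendsto_atTop.mp (hpoly p) (ε / 4) (by linarith)
  refine ⟨N, fun m hm => ?_⟩
  have h1 := hN m hm
  have h2 : |av (Z m) f - av (Z m) (fun x => p.eval x)| ≤ ε / 4 :=
    av_sub_le (hne m) (hR m) fun x hx => by
      rw [abs_sub_comm]
      exact (hp x (abs_le.mp hx)).le
  have h3 : |∫ x, f x ∂(μ : Measure ℝ) - ∫ x, p.eval x ∂(μ : Measure ℝ)| ≤ ε / 4 :=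
    int_sub_le hR0 hsupp hf (by fun_prop) fun x hx => by
      rw [abs_sub_comm]
      exact (hp x (abs_le.mp hx)).le
  rw [Real.dist_eq] at h1 ⊢
  rw [abs_le] at h2 h3
  rw [abs_lt] at h1 ⊢
  constructor <;> linarith [h1.1, h1.2, h2.1, h2.2, h3.1, h3.2]

end Pool.Agent.W672.Dos
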